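import Mathlib
import Pool.Agent.Lib.MP_560012_lc.Final

/-!
The isomorphism relation of Archimedean orders on `ℤ³` is not treeable.
-/

namespace Pool.Agent.Results.MP_560012_lc.NotTreeable

/-- `lt` is an Archimedean left order on the group `ℤ³`: a translation invariant strict total
order such that every element lies below a multiple of any positive element. -/
def IsArchimedeanOrder (lt : (Fin 3 → ℤ) → (Fin 3 → ℤ) → Prop) : Prop :=
  IsStrictTotalOrder (Fin 3 → ℤ) lt ∧ (∀ a b c, lt a b → lt (a + c) (b + c)) ∧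
    ∀ a b, lt 0 a → ∃ k : ℕ, lt b (k • a)

/-- `Ar(ℤ³)`: the points of the Cantor space `2^(ℤ³)` that are (indicator functions of) positive
cones of Archimedean left orders, with the subspace topology. -/
abbrev Ar : Type :=
  {P : (Fin 3 → ℤ) → Bool // ∃ lt, IsArchimedeanOrder lt ∧ ∀ a, P a = true ↔ lt 0 a}

/-- The positive cone as a subset of `ℤ³`. -/
def cone (P : Ar) : Set (Fin 3 → ℤ) := {a | P.1 a = true}

/-- The orbit equivalence relation of the action `g • P = g(P)` of `GL₃(ℤ)` on `Ar(ℤ³)`. -/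
def OrbitRel (P Q : Ar) : Prop :=
  ∃ g : Matrix.GeneralLinearGroup (Fin 3) ℤ,
    cone Q = (fun a => (g : Matrix (Fin 3) (Fin 3) ℤ).mulVec a) '' cone P

section proof

open Pool.Agent.Lib.MP_560012_lc Matrix MeasureTheory

/-- An integer vector as a real vector. -/
def cst (c : Fin 3 → ℤ) : R3 := fun i => (c i : ℝ)

/-- The positive cone defined by a real vector. -/
noncomputable def pt (v : R3) : (Fin 3 → ℤ) → Bool := fun c => decide (0 < cst c ⬝ᵥ v)

lemma cst_add (a b : Fin 3 → ℤ) : cst (a + b) = cst a + cst b := by ext i; simp [cst]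

lemma cst_sub (a b : Fin 3 → ℤ) : cst (a - b) = cst a - cst b := by ext i; simp [cst]

lemma cst_zero : cst 0 = 0 := by ext i; simp [cst]

lemma cst_nsmul (k : ℕ) (a : Fin 3 → ℤ) : cst (k • a) = (k : ℝ) • cst a := by ext i; simp [cst]

lemma cst_mulVec (A : Matrix (Fin 3) (Fin 3) ℤ) (a : Fin 3 → ℤ) :
    cst (A *ᵥ a) = toR A *ᵥ cst a := by
  ext i; simp [cst, Matrix.mulVec, dotProduct, toR_apply]

lemma toR_transpose (A : Matrix (Fin 3) (Fin 3) ℤ) : toR Aᵀ = (toR A)ᵀ := rfl

lemma pt_isAr {w : R3} (hw : ∀ c : Fin 3 → ℤ, c ≠ 0 → cst c ⬝ᵥ w ≠ 0) :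
    ∃ lt, IsArchimedeanOrder lt ∧ ∀ a, pt w a = true ↔ lt 0 a := by
  refine ⟨fun a b => cst a ⬝ᵥ w < cst b ⬝ᵥ w, ⟨?_, ?_, ?_⟩, ?_⟩
  · refine { trichotomous := ?_, irrefl := fun a => lt_irrefl _, trans := fun a b c => lt_trans }
    intro a b h1 h2
    by_contra hne
    apply hw (a - b) (sub_ne_zero.2 hne)
    rw [cst_sub, sub_dotProduct]
    linarith [not_lt.1 h1, not_lt.1 h2]
  · intro a b c h
    simp only [cst_add, add_dotProduct]
    linarith
  · intro a b h
    rw [cst_zero, zero_dotProduct] at h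
    obtain ⟨k, hk⟩ := exists_lt_nsmul h (cst b ⬝ᵥ w)
    refine ⟨k, ?_⟩
    change cst b ⬝ᵥ w < cst (k • a) ⬝ᵥ w
    rw [cst_nsmul, smul_dotProduct]
    simpa using hk
  · intro a
    simp [pt, cst_zero]

lemma ratio_eq {x y x' y' : ℝ} (hy : 0 < y) (hy' : 0 < y')
    (h : ∀ p q : ℤ, 0 < q * x + p * y ↔ 0 < q * x' + p * y') : x / y = x' / y' := by
  apply eq_of_forall_rat_lt_iff_lt
  intro r
  have hd : (0 : ℝ) < r.den := by exact_mod_cast r.den_pos
  have := h (-r.num) r.den
  push_cast at this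
  rw [Rat.cast_def, div_lt_div_iff₀ hd hy, div_lt_div_iff₀ hd hy']
  constructor
  · intro h1; linarith [this.1 (by linarith)]
  · intro h1; linarith [this.2 (by linarith)]

lemma eq_smul_aux {w w' : R3} (h2 : 0 < w 2) (h : ∀ c, 0 < cst c ⬝ᵥ w ↔ 0 < cst c ⬝ᵥ w') :
    ∃ t : ℝ, 0 < t ∧ w' = t • w := by
  have h2' : 0 < w' 2 := by
    simpa [cst, dotProduct, Fin.sum_univ_three, h2] using h ![0, 0, 1]
  have e0 : w 0 / w 2 = w' 0 / w' 2 := ratio_eq h2 h2' fun p q => by
    simpa [cst, dotProduct, Fin.sum_univ_three] using h ![q, 0, p]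
  have e1 : w 1 / w 2 = w' 1 / w' 2 := ratio_eq h2 h2' fun p q => by
    simpa [cst, dotProduct, Fin.sum_univ_three] using h ![0, q, p]
  rw [div_eq_div_iff h2.ne' h2'.ne'] at e0 e1
  refine ⟨w' 2 / w 2, div_pos h2' h2, ?_⟩
  ext i
  fin_cases i <;> simp <;> field_simp
  · linarith
  · linarith

lemma eq_smul_of_pt_eq {w w' : R3} (h2 : w 2 ≠ 0) (h : pt w = pt w') :
    ∃ t : ℝ, 0 < t ∧ w' = t • w := by
  have h' : ∀ c, 0 < cst c ⬝ᵥ w ↔ 0 < cst c ⬝ᵥ w' := fun c => by
    simpa [pt] using congrFun h c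
  rcases lt_or_gt_of_ne h2 with h3 | h3
  · obtain ⟨t, ht, e⟩ := eq_smul_aux (w := -w) (w' := -w') (by simpa using h3) fun c => by
      have := h' (0 - c)
      rw [cst_sub, cst_zero] at this
      simpa using this
    exact ⟨t, ht, by simpa using e⟩
  · exact eq_smul_aux h3 h'

/-- The transpose of an invertible matrix. -/
def tr (g : GL3) : GL3 :=
  ⟨g.1ᵀ, (g⁻¹).1ᵀ, by rw [← Matrix.transpose_mul, Units.inv_mul, Matrix.transpose_one],
    by rw [← Matrix.transpose_mul, Units.mul_inv, Matrix.transpose_one]⟩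

lemma tr_tr (g : GL3) : tr (tr g) = g := Units.ext rfl

/-- The order attached to the vertex `a`. -/
noncomputable def vert (v : R3) (a : GL3) : (Fin 3 → ℤ) → Bool := pt (toR (a⁻¹).1 *ᵥ v)

lemma toR_mulVec_mul (a b : GL3) (v : R3) : toR a.1 *ᵥ (toR b.1 *ᵥ v) = toR (a * b).1 *ᵥ v := by
  rw [Matrix.mulVec_mulVec, Units.val_mul, toR_mul]

lemma dot_tr (g : GL3) (c : Fin 3 → ℤ) (w : R3) :
    cst (g.1 *ᵥ c) ⬝ᵥ w = cst c ⬝ᵥ (toR (tr g).1 *ᵥ w) := by
  rw [cst_mulVec, dotProduct_comm, Matrix.dotProduct_mulVec, dotProduct_comm,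
    ← Matrix.mulVec_transpose]
  rfl

lemma vert_mul_tr (v : R3) (a g : GL3) (c : Fin 3 → ℤ) :
    vert v (a * tr g) (g.1 *ᵥ c) = vert v a c := by
  simp only [vert, pt, dot_tr, toR_mulVec_mul, _root_.mul_inv_rev, mul_inv_cancel_left]

lemma mulVec_surj (g : GL3) (c : Fin 3 → ℤ) : g.1 *ᵥ ((g⁻¹).1 *ᵥ c) = c := by
  rw [Matrix.mulVec_mulVec, Units.mul_inv, Matrix.one_mulVec]

lemma measurable_vert (a : GL3) : Measurable fun v => vert v a := by
  refine measurable_pi_lambda _ fun c => measurable_to_bool ?_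
  have : (fun v => vert v a c) ⁻¹' {true} = {v : R3 | 0 < cst c ⬝ᵥ (toR (a⁻¹).1 *ᵥ v)} := by
    ext v; simp [vert, pt]
  rw [this]
  exact (isOpen_lt continuous_const (continuous_const.dotProduct
    (continuous_const.matrix_mulVec continuous_id))).measurableSet

end proof

open Pool.Agent.Lib.MP_560012_lc Matrix MeasureTheory in
/-- There is no Borel acyclic graph on `Ar(ℤ³)` whose connected components are exactly the
`GL₃(ℤ)`-orbits. -/
theorem result : ¬ ∃ T : SimpleGraph Ar,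
    @MeasurableSet (Ar × Ar) (borel (Ar × Ar)) {p | T.Adj p.1 p.2} ∧ T.IsAcyclic ∧
      ∀ P Q, T.Reachable P Q ↔ OrbitRel P Q := by
  rintro ⟨T, hmeas, hac, hcomp⟩
  have hind : Topology.IsInducing (Prod.map Subtype.val Subtype.val :
      Ar × Ar → ((Fin 3 → ℤ) → Bool) × ((Fin 3 → ℤ) → Bool)) :=
    Topology.IsInducing.subtypeVal.prodMap Topology.IsInducing.subtypeVal
  have hbor : borel (Ar × Ar) = (borel (((Fin 3 → ℤ) → Bool) × ((Fin 3 → ℤ) → Bool))).comap
      (Prod.map Subtype.val Subtype.val) := by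
    exact (congrArg (@borel (Ar × Ar)) hind.eq_induced).trans borel_comap
  rw [hbor, ← BorelSpace.measurable_eq] at hmeas
  obtain ⟨B, hB, hBT⟩ := hmeas
  have hBT' : ∀ P Q : Ar, (P.1, Q.1) ∈ B ↔ T.Adj P Q := fun P Q =>
    Set.ext_iff.1 hBT (P, Q)
  refine no_tree_field (fun v => SimpleGraph.fromRel fun a b => (vert v a, vert v b) ∈ B)
    (fun a b => ?_) (fun v t ht => ?_) (fun v γ a b => ?_) (fun v hv => ?_)
  · simp only [SimpleGraph.fromRel_adj]
    have h : ∀ a b, Measurable fun v => (vert v a, vert v b) ∈ B := fun a b =>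
      measurableSet_setOfPred.1 (((measurable_vert a).prodMk (measurable_vert b)) hB)
    exact measurable_const.and ((h a b).or (h b a))
  · have : vert (t • v) = vert v := by
      ext a c
      simp [vert, pt, Matrix.mulVec_smul, ht]
    simp only [this]
  · have : ∀ a, vert (toR γ *ᵥ v) (γ • a) = vert v a := by
      intro a
      have := toR_mulVec_mul (Matrix.SpecialLinearGroup.toGL γ * a)⁻¹
        (Matrix.SpecialLinearGroup.toGL γ) v
      rw [show (Matrix.SpecialLinearGroup.toGL γ * a)⁻¹ * Matrix.SpecialLinearGroup.toGL γ = a⁻¹ by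
        group] at this
      exact congrArg pt this
    simp only [SimpleGraph.fromRel_adj, this, ne_eq, smul_left_cancel_iff]
  · have hirr : ∀ a : GL3, ∀ c : Fin 3 → ℤ, c ≠ 0 → cst c ⬝ᵥ (toR (a⁻¹).1 *ᵥ v) ≠ 0 := by
      intro a c hc
      rw [← tr_tr a⁻¹, ← dot_tr]
      refine hv.1 _ fun h => hc ?_
      rw [← mulVec_surj (tr a⁻¹)⁻¹ c, inv_inv, h, Matrix.mulVec_zero]
    let f : GL3 → Ar := fun a => ⟨vert v a, pt_isAr (hirr a)⟩
    have hinj : Function.Injective f := by
      intro a b hab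
      have h2 : (toR (a⁻¹).1 *ᵥ v) 2 ≠ 0 := by
        simpa [cst, dotProduct, Fin.sum_univ_three] using hirr a ![0, 0, 1] (by simp)
      obtain ⟨t, ht, e⟩ := eq_smul_of_pt_eq h2 (congrArg Subtype.val hab)
      have e' := congrArg (fun w => toR a.1 *ᵥ w) e
      simp only [Matrix.mulVec_smul, toR_mulVec_mul, mul_inv_cancel, Units.val_one, toR_one,
        Matrix.one_mulVec] at e'
      exact mul_inv_eq_one.1 (hv.2 _ t ht e')
    have hadj : ∀ a b, (SimpleGraph.fromRel fun a b => (vert v a, vert v b) ∈ B).Adj a b ↔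
        T.Adj (f a) (f b) := by
      intro a b
      rw [SimpleGraph.fromRel_adj]
      have h1 := hBT' (f a) (f b)
      have h2 := hBT' (f b) (f a)
      refine ⟨fun h => h.2.elim h1.1 fun h => (h2.1 h).symm, fun h => ⟨?_, Or.inl (h1.2 h)⟩⟩
      rintro rfl
      exact h.ne rfl
    have hcone : ∀ a g : GL3, cone (f (a * tr g)) = (fun c => g.1 *ᵥ c) '' cone (f a) := by
      intro a g
      ext c
      constructor
      · intro h
        refine ⟨(g⁻¹).1 *ᵥ c, ?_, mulVec_surj g c⟩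
        change vert v a _ = true
        rw [← vert_mul_tr v a g, mulVec_surj]
        exact h
      · rintro ⟨c, hc, rfl⟩
        change vert v _ _ = true
        rw [vert_mul_tr]
        exact hc
    have horb : ∀ a Q, OrbitRel (f a) Q → ∃ b, f b = Q := by
      rintro a Q ⟨g, hg⟩
      refine ⟨a * tr g, Subtype.ext (funext fun c => ?_)⟩
      rw [← hcone] at hg
      exact Bool.eq_iff_iff.2 (Set.ext_iff.1 hg c).symm
    refine ⟨⟨fun a b => ?_⟩, hac.comap ⟨f, fun h => (hadj _ _).1 h⟩ hinj⟩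
    have h1 : T.Reachable (f a) (f b) := (hcomp _ _).2 ⟨tr (a⁻¹ * b), by
      rw [← hcone, tr_tr, mul_inv_cancel_left]⟩
    have key : ∀ Q, Relation.ReflTransGen T.Adj (f a) Q → ∀ b, f b = Q →
        (SimpleGraph.fromRel fun a b => (vert v a, vert v b) ∈ B).Reachable a b := by
      intro Q hQ
      induction hQ with
      | refl => intro b hb; rw [hinj hb]
      | @tail P Q hP hPQ ih =>
        rintro b rfl
        obtain ⟨c, rfl⟩ := horb a P ((hcomp _ _).1
          ((SimpleGraph.reachable_iff_reflTransGen _ _).2 hP))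
        exact (ih c rfl).trans ((hadj _ _).2 hPQ).reachable
    exact key _ ((SimpleGraph.reachable_iff_reflTransGen _ _).1 h1) b rfl

end Pool.Agent.Results.MP_560012_lc.NotTreeable
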